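import Pool.Agent.V1171.RH.Main

set_option autoImplicit false

open Set Metric Filter Topology Pool.Agent.V1171.Kob Pool.Agent.V1171.RH

namespace Pool.Agent.Results.MP_32da07_an.LowerEstimateFails

/-- The number of indices `j` with `ζ j = 0` such that `D` misses the hyperplane `{z | z j = 0}`. -/
noncomputable def NN {n : ℕ} (D : Set (Fin n → ℂ)) (ζ : Fin n → ℂ) : ℕ :=
  Set.ncard {j : Fin n | ζ j = 0 ∧ D ∩ {z | z j = 0} = ∅}

/-- The lower estimates of the problem at a boundary point `ζ` (with base point `z₀`): there are a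
neighbourhood `U` of `ζ` and a constant `C` such that on `D ∩ U` the estimate prescribed by the
value of `N(ζ)` holds. -/
def LowerEstimate {n : ℕ} (D : Set (Fin n → ℂ)) (z₀ ζ : Fin n → ℂ) : Prop :=
  ∃ U ∈ 𝓝 ζ, ∃ C : ℝ, ∀ z ∈ D ∩ U,
    (NN D ζ = 0 → -(1 / 2) * Real.log (bdist D z) + C ≤ kob D z₀ z) ∧
    (1 ≤ NN D ζ → 1 / 2 * Real.log (-Real.log (bdist D z)) + C ≤ kob D z₀ z)

/-- There are a (bounded) pseudoconvex Reinhardt domain `D ⊂ ℂ³` and a boundary point `ζ` with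
`N(ζ) = 0` such that the lower estimate fails at `ζ`, for every base point `z₀ ∈ D`. -/
theorem result : ∃ D : Set (Fin 3 → ℂ), IsOpen D ∧ IsConnected D ∧ Bornology.IsBounded D ∧
    IsPseudoconvex D ∧ IsReinhardt D ∧
    ∃ ζ ∈ frontier D, (∀ i, ζ i ≠ 0) ∧ NN D ζ = 0 ∧ ∀ z₀ ∈ D, ¬ LowerEstimate D z₀ ζ := by
  obtain ⟨D, h1, h2, h3, h4, h5, h6, z, h7, h8, h9⟩ := main
  have hN : NN D (fun _ => 1) = 0 := by
    unfold NN
    have : {j : Fin 3 | (fun _ => (1 : ℂ)) j = 0 ∧ D ∩ {z | z j = 0} = ∅} = ∅ := by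
      ext j
      simp
    rw [this, Set.ncard_empty]
  refine ⟨D, h1, h2, h3, h4, h5, fun _ => 1, h6, fun _ => one_ne_zero, hN, ?_⟩
  rintro z₀ hz₀ ⟨U, hU, C, hC⟩
  have h10 := (h9 z₀ hz₀).eventually (eventually_lt_atBot C)
  have h11 := h8.eventually_mem hU
  obtain ⟨k, hk1, hk2⟩ := (h10.and h11).exists
  have h12 := (hC (z k) ⟨(h7 k).1, hk2⟩).1 hN
  linarith

end Pool.Agent.Results.MP_32da07_an.LowerEstimateFails
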